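import Mathlib

set_option autoImplicit false

namespace Pool.Agent.H47NP

/-- `1 + p + ... + p^(m-1)` as an integer -/
def S (p : ℤ) (m : ℕ) : ℤ := ∑ i ∈ Finset.range m, p ^ i

theorem S_succ (p : ℤ) (m : ℕ) : S p (m + 1) = S p m + p ^ m := Finset.sum_range_succ _ _

theorem S_succ' (p : ℤ) (m : ℕ) : S p (m + 1) = 1 + p * S p m := by
  unfold S
  rw [Finset.sum_range_succ', Finset.mul_sum, pow_zero, add_comm]
  congr 1
  refine Finset.sum_congr rfl fun i _ => ?_
  rw [pow_succ, mul_comm]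

theorem S_pow (p : ℤ) (m : ℕ) : p ^ m = (p - 1) * S p m + 1 := by
  have h1 := S_succ p m
  have h2 := S_succ' p m
  linear_combination h2 - h1

theorem S_nonneg {p : ℤ} (hp : 0 ≤ p) (m : ℕ) : 0 ≤ S p m :=
  Finset.sum_nonneg fun i _ => pow_nonneg hp i

/-- case (B2) -/
theorem caseB2 {p T X Y g : ℤ} (hp : 3 ≤ p) (hodd : Odd p) (hT : 1 + p + p ^ 2 ≤ T)
    (hX : 0 < X) (hY : 0 < Y) (hYX : Y ∣ X) (hg : Even g) (hg0 : 0 < g)
    (h : 1 + (X + Y) * ((p - 1) * T + 1) = (g * X - p) * T) : False := by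
  obtain ⟨j, hj⟩ : ∃ j, j = g * X - p - (p - 1) * (X + Y) := ⟨_, rfl⟩
  have hT0 : 0 < T := by nlinarith
  have hPM : 0 < (p - 1) * T + 1 := by nlinarith
  have h1 : g * X = 1 + j * ((p - 1) * T + 1) := by
    rw [hj]
    linear_combination (p - 1) * h
  have h2 : X + Y + 1 = j * T := by
    have : (X + Y + 1) * ((p - 1) * T + 1) = j * T * ((p - 1) * T + 1) := by
      linear_combination h + T * h1
    exact mul_right_cancel₀ hPM.ne' this
  have hgX : 1 < g * X := by
    obtain ⟨u, hu⟩ := hg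
    nlinarith
  have hj0 : 0 < j := by
    by_contra hcon
    push Not at hcon
    nlinarith
  obtain ⟨r, hr⟩ : ∃ r, r = g - p + 1 := ⟨_, rfl⟩
  have hrev : Even r := by
    obtain ⟨u, hu⟩ := hg
    obtain ⟨v, hv⟩ := hodd
    exact ⟨u - v, by rw [hr, hu, hv]; ring⟩
  have h3 : j * (r * T - 1) = g * (Y + 1) + 1 := by
    rw [hr]
    linear_combination h1 - g * h2
  have hr0 : 0 < r := by
    by_contra hcon
    push Not at hcon
    have h4 : r * T ≤ 0 := by nlinarith
    have h5 : j * (r * T - 1) < 0 := by nlinarith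
    nlinarith
  have hr2 : 2 ≤ r := by
    obtain ⟨u, hu⟩ := hrev
    omega
  have h4 : r * X = (p - 1) * Y + p + j := by
    have hg' : g = r + p - 1 := by rw [hr]; ring
    rw [hg'] at h3
    linear_combination r * h2 + h3
  obtain ⟨H, hH⟩ := hYX
  have h5 : p + j = (r * H - (p - 1)) * Y := by
    rw [hH] at h4
    linear_combination -h4
  have hw0 : 0 < r * H - (p - 1) := by
    by_contra hcon
    push Not at hcon
    nlinarith
  have hw2 : 2 ≤ r * H - (p - 1) := by
    have hev : Even (r * H - (p - 1)) := by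
      refine (hrev.mul_right H).sub ?_
      obtain ⟨v, hv⟩ := hodd
      exact ⟨v, by rw [hv]; ring⟩
    obtain ⟨u, hu⟩ := hev
    omega
  have h6 : 2 * Y ≤ p + j := by
    rw [h5]
    nlinarith
  have h7 : r * j * T = p + j + r + (r + p - 1) * Y := by
    linear_combination -r * h2 + h4
  have h8 : 2 * (r * j * (1 + p + p ^ 2)) ≤ 2 * (p + j + r) + (r + p - 1) * (p + j) := by
    have e1 : r * j * (1 + p + p ^ 2) ≤ r * j * T := by
      have : 0 < r * j := mul_pos hr0 hj0
      nlinarith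
    have e2 : (r + p - 1) * (2 * Y) ≤ (r + p - 1) * (p + j) :=
      mul_le_mul_of_nonneg_left h6 (by linarith)
    nlinarith
  have h9 : r * (p + j + 2) ≤ r * j * (p + 3) := by
    have : 0 ≤ (j - 1) * (p + 2) := mul_nonneg (by linarith) (by linarith)
    nlinarith
  have h10 : 2 * ((p + 1) * (p + j)) ≤ r * j * (p + 1) ^ 2 := by
    have e1 : p + j ≤ j * (p + 1) := by nlinarith
    have e2 : (p + 1) * (p + j) ≤ (p + 1) * (j * (p + 1)) :=
      mul_le_mul_of_nonneg_left e1 (by linarith)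
    have e3 : 2 * (j * (p + 1) ^ 2) ≤ r * (j * (p + 1) ^ 2) :=
      mul_le_mul_of_nonneg_right hr2 (by positivity)
    have e4 : (p + 1) * (j * (p + 1)) = j * (p + 1) ^ 2 := by ring
    have e5 : r * j * (p + 1) ^ 2 = r * (j * (p + 1) ^ 2) := by ring
    linarith
  have h11 : 0 < r * j := mul_pos hr0 hj0
  have h12 : r * j * (3 * p ^ 2 - 3) ≤ 0 := by
    have e1 : 2 * (p + j + r) + (r + p - 1) * (p + j) = r * (p + j + 2) + (p + 1) * (p + j) := by
      ring
    have e2 : r * j * (3 * p ^ 2 - 3) = 4 * (r * j * (1 + p + p ^ 2)) - 2 * (r * j * (p + 3)) -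
        r * j * (p + 1) ^ 2 := by ring
    linarith
  have h13 : 0 < r * j * (3 * p ^ 2 - 3) := mul_pos h11 (by nlinarith)
  linarith

end Pool.Agent.H47NP
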