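import Mathlib
import Pool.Agent.H47NP.A

set_option autoImplicit false

namespace Pool.Agent.H47NP

theorem odd_pow_two {c : ℤ} {a : ℕ} (hc : Odd c) (h0 : 0 < c) (h : c ∣ 2 ^ a) : c = 1 := by
  have h1 : IsCoprime c (2 ^ a) := by
    refine IsCoprime.pow_right ?_
    obtain ⟨u, hu⟩ := hc
    exact ⟨1, -u, by rw [hu]; ring⟩
  have h2 : IsUnit c := h1.isUnit_of_dvd' dvd_rfl h
  rcases Int.isUnit_iff.1 h2 with h3 | h3
  · exact h3
  · omega

/-- case (B3), `b = 0` -/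
theorem caseB3a {p T X Y c r : ℤ} (hp : 3 ≤ p) (hT : 1 + p + p ^ 2 ≤ T)
    (hc : 1 ≤ c) (hr : 2 ≤ r) (hX : 0 < X) (hcr : c = r * X - p)
    (hY : 4 * Y ≤ (p + c) * (p + 1)) (h : c * T = 1 + X + Y) : False := by
  have h1 : 2 * X ≤ p + c := by nlinarith
  have h2 : c * (1 + p + p ^ 2) ≤ c * T := mul_le_mul_of_nonneg_left hT (by linarith)
  have h3 : (p + c) * (p + 1) ≤ c * (p + 1) * (p + 1) := by
    have : p + c ≤ c * (p + 1) := by nlinarith
    exact mul_le_mul_of_nonneg_right this (by linarith)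
  have h4 : p + c ≤ c * (p + 1) := by nlinarith
  have h5 : 4 * (c * (1 + p + p ^ 2)) ≤ 4 + 2 * (c * (p + 1)) + c * (p + 1) * (p + 1) := by
    linarith
  have h6 : 4 * (c * (1 + p + p ^ 2)) - 2 * (c * (p + 1)) - c * (p + 1) * (p + 1) =
      c * (3 * p ^ 2 + 1) := by ring
  have h7 : 3 * p ^ 2 + 1 ≤ c * (3 * p ^ 2 + 1) := by nlinarith
  nlinarith

/-- case (B3), `1 ≤ b ≤ m - 2`: here `Q = p^(m-2)`, `B = p^b`, `T = 1 + p + ... + p^(m-1)
= 1 + p T2`, `T2 = 1 + p T1`, `T = T1 + Q + p Q`. -/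
theorem caseB3b {p : ℕ} {a b n : ℕ} {X c r T T1 T2 : ℤ} (hp : 3 ≤ (p : ℤ))
    (hT1 : 1 ≤ T1) (hT2 : T2 = 1 + p * T1) (hT : T = 1 + p * T2)
    (hTQ : T = T1 + (p : ℤ) ^ (n + 1) + (p : ℤ) ^ (n + 2))
    (hc : 1 ≤ c) (hodd : Odd c) (hr : 2 ≤ r) (hX : 0 < X) (hcr : c = r * X - p)
    (hY : 4 * (2 : ℤ) ^ a ≤ (p + c) * (p + 1)) (hb : b ≤ n)
    (h : c * T = 1 + X + 2 ^ a * (p : ℤ) ^ (b + 1)) : False := by
  have h1 : 2 * X ≤ p + c := by nlinarith
  have hQ : 0 < (p : ℤ) ^ (n + 1) := by positivity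
  have hB : (p : ℤ) ^ (b + 1) ≤ (p : ℤ) ^ (n + 1) := pow_le_pow_right₀ (by linarith) (by omega)
  have hQ2 : (p : ℤ) ^ (n + 2) = p * (p : ℤ) ^ (n + 1) := by ring
  have hcp : c < p := by
    by_contra hcon
    push Not at hcon
    have e1 : 2 ^ a * (p : ℤ) ^ (b + 1) ≤ 2 ^ a * (p : ℤ) ^ (n + 1) :=
      mul_le_mul_of_nonneg_left hB (by positivity)
    have e2 : 4 * 2 ^ a * (p : ℤ) ^ (n + 1) ≤ (p + c) * (p + 1) * (p : ℤ) ^ (n + 1) :=
      mul_le_mul_of_nonneg_right hY hQ.le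
    have e3 : (p + c) * (p + 1) * (p : ℤ) ^ (n + 1) ≤ (2 * c) * (p + 1) * (p : ℤ) ^ (n + 1) := by
      refine mul_le_mul_of_nonneg_right (mul_le_mul_of_nonneg_right (by linarith) (by linarith)) hQ.le
    have e4 : c * ((p + 1) * (p : ℤ) ^ (n + 1) + 1) ≤ c * T := by
      refine mul_le_mul_of_nonneg_left ?_ (by linarith)
      rw [hTQ, hQ2]
      linarith
    have e5 : c * ((p + 1) * (p : ℤ) ^ (n + 1) + 1) = c * ((p + 1) * (p : ℤ) ^ (n + 1)) + c := by ring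
    have e6 : (2 * c) * (p + 1) * (p : ℤ) ^ (n + 1) = 2 * (c * ((p + 1) * (p : ℤ) ^ (n + 1))) := by ring
    have e7 : 4 * (c * ((p + 1) * (p : ℤ) ^ (n + 1))) + 4 * c ≤ 4 + 2 * (p + c) +
        2 * (c * ((p + 1) * (p : ℤ) ^ (n + 1))) := by linarith
    have e8 : c * ((p + 1) * (p : ℤ) ^ (n + 1)) ≥ (p + 1) * (p : ℤ) ^ (n + 1) := by
      have : 0 < (p + 1) * (p : ℤ) ^ (n + 1) := by positivity
      nlinarith
    have e9 : (p + 1) * (p : ℤ) ^ (n + 1) ≥ 4 := by nlinarith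
    linarith
  -- modulo p
  have hd : (p : ℤ) ∣ (1 + X) - c := by
    refine ⟨c * T2 - 2 ^ a * (p : ℤ) ^ b, ?_⟩
    rw [hT] at h
    rw [pow_succ] at h
    linear_combination -h
  have hXc : 1 + X = c := by
    obtain ⟨q, hq⟩ := hd
    have q1 : q < 1 := by
      by_contra hcon
      push Not at hcon
      nlinarith
    have q2 : -1 < q := by
      by_contra hcon
      push Not at hcon
      nlinarith
    have : q = 0 := by omega
    rw [this] at hq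
    linarith
  have h2 : 2 ^ a * (p : ℤ) ^ b = c * T2 := by
    have h3 : (p : ℤ) * (2 ^ a * (p : ℤ) ^ b) = p * (c * T2) := by
      rw [hT, pow_succ] at h
      linear_combination -hXc - h
    exact mul_left_cancel₀ (by linarith) h3
  have hb0 : b = 0 := by
    by_contra hb0
    obtain ⟨b', rfl⟩ := Nat.exists_eq_succ_of_ne_zero hb0
    have h4 : (p : ℤ) ∣ c * T2 := by
      rw [← h2, pow_succ]
      exact ⟨2 ^ a * (p : ℤ) ^ b', by ring⟩
    have h5 : (p : ℤ) ∣ c := by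
      have : c = c * T2 - p * (c * T1) := by rw [hT2]; ring
      rw [this]
      exact dvd_sub h4 (dvd_mul_right _ _)
    have := Int.le_of_dvd (by linarith) h5
    linarith
  subst hb0
  rw [pow_zero, mul_one] at h2
  have hc1 : c = 1 := odd_pow_two hodd (by linarith) ⟨T2, h2⟩
  linarith

end Pool.Agent.H47NP
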