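import Mathlib
import Pool.Agent.H47NP.B

set_option autoImplicit false

namespace Pool.Agent.H47NP

/-- case (B3), `b = m - 1`, `Y < X` -/
theorem caseC1 {p P r g X Y z H : ℤ} (hp : 3 ≤ p) (hP2 : p ^ 2 ≤ P) (hr2 : 2 ≤ r)
    (hg : g = r + p - 1) (hz0 : 0 < z) (hG : z * P = g * X - 1)
    (hF : p * r * X = (p - 1) * Y + p ^ 2 + z) (hXH : X = H * Y) (hH2 : 2 ≤ H) (hY : 0 < Y) :
    False := by
  have e1 : z * p ^ 2 ≤ z * P := mul_le_mul_of_nonneg_left hP2 hz0.le
  have e2 : p ^ 2 + z = Y * (p * r * H - (p - 1)) := by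
    rw [hXH] at hF
    linear_combination -hF
  have e3 : (p * r * H - (p - 1)) - g * H = (p - 1) * (H * (r - 1) - 1) := by
    rw [hg]
    ring
  have e4 : 0 < H * (r - 1) - 1 := by nlinarith
  have e5 : 0 < (p - 1) * (H * (r - 1) - 1) := mul_pos (by linarith) e4
  have e6 : g * H * Y < (p * r * H - (p - 1)) * Y := mul_lt_mul_of_pos_right (by linarith) hY
  have e7 : z * p ^ 2 + 1 ≤ g * H * Y := by
    rw [hXH] at hG
    linarith
  have e8 : z * p ^ 2 + 1 < p ^ 2 + z := by linarith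
  have e10 : 0 ≤ p ^ 2 - 1 := by nlinarith
  have e9 : 0 ≤ (z - 1) * (p ^ 2 - 1) := mul_nonneg (by linarith) e10
  linarith

/-- case (B3), `b = m - 1`, `Y = G X`: the bound `v ≤ g` -/
theorem caseC2a {p P g X z v : ℤ} (hp : 3 ≤ p) (hP2 : p ^ 2 ≤ P) (hz0 : 0 < z)
    (hG : z * P = g * X - 1) (hXv : X * v = p ^ 2 + z) (hv0 : 0 < v) : v ≤ g := by
  have hvz : v * (z * P + 1) = g * (p ^ 2 + z) := by
    rw [hG, ← hXv]
    ring
  by_contra hcon
  push Not at hcon
  have e1 : z * p ^ 2 ≤ z * P := mul_le_mul_of_nonneg_left hP2 hz0.le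
  have e10 : 0 ≤ p ^ 2 - 1 := by nlinarith
  have e2 : p ^ 2 + z ≤ z * p ^ 2 + 1 := by
    have : 0 ≤ (z - 1) * (p ^ 2 - 1) := mul_nonneg (by linarith) e10
    linarith
  have e3 : 0 < p ^ 2 + z := by positivity
  have e4 : g * (p ^ 2 + z) < v * (p ^ 2 + z) := mul_lt_mul_of_pos_right hcon e3
  have e5 : v * (p ^ 2 + z) ≤ v * (z * P + 1) :=
    mul_le_mul_of_nonneg_left (by linarith) hv0.le
  linarith

/-- `G = 1`, `r = 2` -/
theorem caseC2b {p P X z : ℤ} (hp : 3 ≤ p) (hPP : P = p ^ 2 ∨ p ^ 3 ≤ P) (hz0 : 0 < z)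
    (hG : z * P = (p + 1) * X - 1) (hXv : X * (p + 1) = p ^ 2 + z) : False := by
  have e1 : z * (P - 1) = p ^ 2 - 1 := by linear_combination hG + hXv
  rcases hPP with hPP | hPP
  · rw [hPP] at e1
    have hpos : 0 < p ^ 2 - 1 := by nlinarith
    have hz' : z = 1 := by
      have : z * (p ^ 2 - 1) = 1 * (p ^ 2 - 1) := by linarith
      exact mul_right_cancel₀ hpos.ne' this
    rw [hz'] at hXv
    have : (p + 1) ∣ 2 := ⟨X - (p - 1), by linear_combination -hXv⟩
    have := Int.le_of_dvd (by norm_num) this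
    linarith
  · have hpos : 0 < P - 1 := by nlinarith [pow_pos (show 0 < p by linarith) 2]
    have e2 : P - 1 ≤ z * (P - 1) := le_mul_of_one_le_left hpos.le hz0
    have e3 : p ^ 3 = p * p ^ 2 := by ring
    have e4 : 0 < p ^ 2 := by positivity
    nlinarith

/-- `G = r` -/
theorem caseC2c {p P r g X z om : ℤ} (hp : 3 ≤ p) (hPP : P = p ^ 2 ∨ p ^ 3 ≤ P) (hz0 : 0 < z)
    (hr2 : 2 ≤ r) (hgr : g = r + p - 1) (hG : z * P = g * X - 1) (hXv : X * r = p ^ 2 + z)
    (hom : g = r * (om + 1)) : False := by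
  have e1 : p - 1 = r * om := by
    rw [hgr] at hom
    linarith
  have hom1 : 1 ≤ om := by
    by_contra hcon
    push Not at hcon
    nlinarith
  have hom2 : 2 * om ≤ p - 1 := by
    rw [e1]
    nlinarith
  have e2 : z * (P - om - 1) = (om + 1) * p ^ 2 - 1 := by
    rw [hom] at hG
    linear_combination hG + (om + 1) * hXv
  rcases hPP with hPP | hPP
  · rw [hPP] at e2
    have e3 : (p ^ 2 - om - 1) ∣ om * (om + 2) := by
      refine ⟨z - (om + 1), ?_⟩
      linear_combination -e2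
    have e4 : 0 < om * (om + 2) := by positivity
    have e5 := Int.le_of_dvd e4 e3
    nlinarith
  · have e5 : p ^ 3 = p * p ^ 2 := by ring
    have e6 : 0 < p ^ 2 := by positivity
    have hpos : 0 ≤ P - om - 1 := by nlinarith
    have e3 : P - om - 1 ≤ z * (P - om - 1) := le_mul_of_one_le_left hpos hz0
    have e7 : 2 * ((om + 1) * p ^ 2) ≤ (p + 1) * p ^ 2 :=
      by nlinarith
    have e8 : 0 < (p - 1) * (p ^ 2 - 1) := mul_pos (by linarith) (by nlinarith)
    nlinarith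

/-- case (B3), `b = m - 1`, `Y = G X` -/
theorem caseC2 {p P r g X Y z G : ℤ} {d e : ℕ} (hp : 3 ≤ p) (hpodd : Odd p)
    (hPP : P = p ^ 2 ∨ p ^ 3 ≤ P) (hr2 : 2 ≤ r) (hrev : Even r)
    (hgr : g = r + p - 1) (hg : g = 2 ^ e) (hGd : G = 2 ^ d) (hz0 : 0 < z)
    (hG : z * P = g * X - 1)
    (hF : p * r * X = (p - 1) * Y + p ^ 2 + z) (hYG : Y = G * X) (hX : 0 < X)
    (hY2 : 2 * Y ≤ g * X) : False := by
  have hP2 : p ^ 2 ≤ P := by
    rcases hPP with h | h
    · exact h.ge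
    · have e3 : p ^ 3 = p * p ^ 2 := by ring
      have e4 : 0 < p ^ 2 := by positivity
      nlinarith
  have hG1 : 1 ≤ G := by rw [hGd]; exact one_le_pow₀ (by norm_num)
  obtain ⟨v, hv⟩ : ∃ v, v = p * r - (p - 1) * G := ⟨_, rfl⟩
  have hXv : X * v = p ^ 2 + z := by
    rw [hYG] at hF
    rw [hv]
    linear_combination hF
  have hpz : 0 < p ^ 2 + z := by positivity
  have hv0 : 0 < v := by
    rw [← hXv] at hpz
    exact (mul_pos_iff_of_pos_left hX).1 hpz
  have hvev : Even v := by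
    rw [hv]
    refine (hrev.mul_left p).sub ?_
    obtain ⟨w, hw⟩ := hpodd
    exact ⟨w * G, by rw [hw]; ring⟩
  have hv2 : 2 ≤ v := by
    obtain ⟨w, hw⟩ := hvev
    omega
  have hvg : v ≤ g := caseC2a hp hP2 hz0 hG hXv hv0
  have hG2 : 2 * G ≤ g := by
    have : (2 * G) * X ≤ g * X := by
      rw [hYG] at hY2
      linarith
    exact le_of_mul_le_mul_right this hX
  have f1 : r - 1 ≤ G := by
    have : (p - 1) * (r - 1) ≤ (p - 1) * G := by
      rw [hv, hgr] at hvg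
      linarith
    exact le_of_mul_le_mul_left this (by linarith)
  have f2 : r ≤ p + 1 := by
    have e1 : (p - 1) * (2 * G) ≤ (p - 1) * g := mul_le_mul_of_nonneg_left hG2 (by linarith)
    have e2 : 2 * v ≤ 2 * g := by linarith
    have e3 : (p - 1) * r ≤ (p - 1) * (p + 1) := by
      rw [hv] at e2
      rw [hgr] at e1 e2
      linarith
    exact le_of_mul_le_mul_left e3 (by linarith)
  have f3 : G ≤ r + 1 := by
    by_contra hcon
    push Not at hcon
    have : (p - 1) * (r + 2) ≤ (p - 1) * G := mul_le_mul_of_nonneg_left (by linarith) (by linarith)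
    rw [hv] at hv2
    linarith
  have hGr : G = r - 1 ∨ G = r ∨ G = r + 1 := by omega
  rcases hGr with hGr | hGr | hGr
  · -- `G = r - 1`, hence `G = 1`, `r = 2`
    have hGodd : Odd G := by
      obtain ⟨w, hw⟩ := hrev
      exact ⟨w - 1, by rw [hGr, hw]; ring⟩
    have hGone : G = 1 := odd_pow_two (a := d) hGodd (by linarith) (by rw [hGd])
    have hr' : r = 2 := by linarith
    have hv' : v = p + 1 := by rw [hv, hGone, hr']; ring
    have hg' : g = p + 1 := by rw [hgr, hr']; ring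
    rw [hg'] at hG
    rw [hv'] at hXv
    exact caseC2b hp hPP hz0 hG hXv
  · -- `G = r`
    have hv' : v = r := by rw [hv, hGr]; ring
    obtain ⟨om, hom⟩ : ∃ om : ℤ, g = r * (om + 1) := by
      have hdg : G ∣ g := by
        rw [hGd, hg]
        refine pow_dvd_pow 2 ?_
        by_contra hcon
        push Not at hcon
        have : (2 : ℤ) ^ e < 2 ^ d := pow_lt_pow_right₀ (by norm_num) hcon
        rw [← hGd, ← hg] at this
        linarith
      obtain ⟨q, hq⟩ := hdg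
      exact ⟨q - 1, by rw [hq, hGr]; ring⟩
    rw [hv'] at hXv
    exact caseC2c hp hPP hz0 hr2 hgr hG hXv hom
  · -- `G = r + 1`
    have hGodd : Odd G := by
      obtain ⟨w, hw⟩ := hrev
      exact ⟨w, by rw [hGr, hw]; ring⟩
    have hGone : G = 1 := odd_pow_two (a := d) hGodd (by linarith) (by rw [hGd])
    linarith

/-- case (B3), `b = m - 1`: `P = p^(m-1)`, `T2 = 1 + ... + p^(m-2)`, `P = (p-1) T2 + 1`,
`T = T2 + P`; `m = 3` (`P = p^2`) or `p^3 ≤ P`. -/
theorem caseB3c {p T T2 P c r g : ℤ} {a1 a2 e : ℕ} (hp : 3 ≤ p) (hpodd : Odd p)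
    (hP : P = (p - 1) * T2 + 1) (hT : T = T2 + P) (hT2 : 1 + p ≤ T2)
    (hPP : P = p ^ 2 ∨ p ^ 3 ≤ P) (hg : g = 2 ^ e) (hr : r = g - p + 1)
    (hr2 : 2 ≤ r) (hrev : Even r)
    (hc : 1 ≤ c) (hodd : Odd c) (hcr : c = r * 2 ^ a1 - p)
    (hY2 : 2 * 2 ^ a2 ≤ g * 2 ^ a1)
    (h : c * T = 1 + 2 ^ a1 + 2 ^ a2 * P) : False := by
  obtain ⟨X, hXdef⟩ : ∃ X : ℤ, X = 2 ^ a1 := ⟨_, rfl⟩
  obtain ⟨Y, hYdef⟩ : ∃ Y : ℤ, Y = 2 ^ a2 := ⟨_, rfl⟩
  have hX : 0 < X := by rw [hXdef]; positivity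
  have hY : 0 < Y := by rw [hYdef]; positivity
  rw [← hXdef] at hcr hY2 h
  rw [← hYdef] at hY2 h
  have hP2 : p ^ 2 ≤ P := by nlinarith
  have hPpos : 0 < P := by nlinarith
  have h1 : 2 * X ≤ p + c := by nlinarith
  have h2 : c * T2 - (1 + X) = (Y - c) * P := by rw [hT] at h; linear_combination h
  rcases lt_trichotomy Y c with hlt | heq | hgt
  · -- `Y < c`
    have e1 : P ≤ (c - Y) * P := le_mul_of_one_le_left hPpos.le (by linarith)
    have e2 : c * (1 + p) ≤ c * T2 := mul_le_mul_of_nonneg_left hT2 (by linarith)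
    have e3 : p ≤ c * p := le_mul_of_one_le_left (by linarith) hc
    nlinarith
  · -- `Y = c`
    have hc1 : c = 1 := odd_pow_two (a := a2) hodd (by linarith) (by rw [← hYdef, heq])
    rw [heq, sub_self, zero_mul] at h2
    rw [hc1] at h2 h1
    linarith
  · -- `c < Y`
    obtain ⟨z, hz⟩ : ∃ z, z = p * c - (p - 1) * Y := ⟨_, rfl⟩
    have hz1 : z * T2 = 1 + X + Y - c := by
      rw [hz]
      rw [hP] at h2
      linear_combination h2
    have hz0 : 0 < z := by
      have : 0 < z * T2 := by linarith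
      exact (mul_pos_iff_of_pos_right (by linarith)).1 this
    have hgr : g = r + p - 1 := by rw [hr]; ring
    have hG : z * P = g * X - 1 := by
      rw [hgr, hP]
      linear_combination (p - 1) * hz1 + hz + hcr
    have hF : p * r * X = (p - 1) * Y + p ^ 2 + z := by
      rw [hz, hcr]
      ring
    rcases lt_or_ge a2 a1 with ha | ha
    · -- `Y < X`
      obtain ⟨d, hd⟩ := Nat.exists_eq_add_of_lt ha
      obtain ⟨H, hH⟩ : ∃ H : ℤ, H = 2 ^ (d + 1) := ⟨_, rfl⟩
      have hXH : X = H * Y := by rw [hXdef, hYdef, hH, hd]; ring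
      have hH2 : 2 ≤ H := by
        rw [hH, pow_succ]
        have : (1 : ℤ) ≤ 2 ^ d := one_le_pow₀ (by norm_num)
        linarith
      exact caseC1 hp hP2 hr2 hgr hz0 hG hF hXH hH2 hY
    · -- `X ≤ Y`
      obtain ⟨d, hd⟩ := Nat.exists_eq_add_of_le ha
      obtain ⟨G, hGd⟩ : ∃ G : ℤ, G = 2 ^ d := ⟨_, rfl⟩
      have hYG : Y = G * X := by rw [hXdef, hYdef, hGd, hd]; ring
      exact caseC2 hp hpodd hPP hr2 hrev hgr hg hGd hz0 hG hF hYG hX hY2

end Pool.Agent.H47NP
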