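import Mathlib
import Pool.Agent.H47NP.C

set_option autoImplicit false

namespace Pool.Agent.H47NP

/-- the case `p = 2^(k+1) - 1`: `A_i = 2^(a_i)` with `2 A_i ≤ p + 1`; `m = 3` -/
theorem caseT1 {p : ℤ} {A1 A2 : ℤ} {b1 b2 n : ℕ} (hp : 3 ≤ p) (hA1 : 0 < A1) (hA2 : 0 < A2)
    (hA1p : 2 * A1 ≤ p + 1) (hA2p : 2 * A2 ≤ p + 1) (hb : b1 ≤ b2)
    (h : 1 + A1 * p ^ b1 + A2 * p ^ b2 = S p (n + 3)) : n = 0 := by
  by_contra hn
  obtain ⟨n, rfl⟩ := Nat.exists_eq_succ_of_ne_zero hn
  have hS3 : S p (n + 1 + 3) = 1 + p * (1 + p * (1 + p * S p (n + 1))) := by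
    rw [show n + 1 + 3 = (n + 1 + 1 + 1) + 1 by ring, S_succ', S_succ', S_succ']
  have hS1 : S p (n + 1) = 1 + p * S p n := S_succ' _ _
  have hS0 : 0 ≤ S p n := S_nonneg (by linarith) n
  have hS1' : 1 ≤ S p (n + 1) := by rw [hS1]; nlinarith
  rw [Nat.succ_eq_add_one, hS3] at h
  have hnd : ∀ x : ℤ, 0 < x → x < p → ¬ p ∣ x := by
    intro x hx hxp hd
    have := Int.le_of_dvd hx hd
    linarith
  have hb1 : b1 ≠ 0 := by
    rintro rfl
    rcases Nat.eq_zero_or_pos b2 with h0 | h0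
    · subst h0
      simp only [pow_zero, mul_one] at h
      have e1 : p * 1 ≤ p * (1 + p * (1 + p * S p (n + 1))) := by
        refine mul_le_mul_of_nonneg_left ?_ (by linarith)
        nlinarith
      have e2 : 1 ≤ (1 + p * S p (n + 1)) := by nlinarith
      have e3 : p * 1 ≤ p * (1 + p * S p (n + 1)) := mul_le_mul_of_nonneg_left e2 (by linarith)
      have e4 : p * (1 + p) ≤ p * (1 + p * (1 + p * S p (n + 1))) :=
        mul_le_mul_of_nonneg_left (by linarith) (by linarith)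
      nlinarith
    · obtain ⟨b2, rfl⟩ := Nat.exists_eq_succ_of_ne_zero h0.ne'
      refine hnd A1 hA1 (by linarith) ?_
      refine ⟨(1 + p * (1 + p * S p (n + 1))) - A2 * p ^ b2, ?_⟩
      rw [Nat.succ_eq_add_one, pow_succ, pow_zero] at h
      linear_combination h
  obtain ⟨b1, rfl⟩ := Nat.exists_eq_succ_of_ne_zero hb1
  obtain ⟨b2, rfl⟩ := Nat.exists_eq_succ_of_ne_zero (show b2 ≠ 0 by omega)
  have hp0 : p ≠ 0 := by linarith
  have h' : A1 * p ^ b1 + A2 * p ^ b2 = 1 + p * (1 + p * S p (n + 1)) := by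
    refine mul_left_cancel₀ hp0 ?_
    rw [Nat.succ_eq_add_one, Nat.succ_eq_add_one, pow_succ, pow_succ] at h
    linear_combination h
  have hb1' : b1 = 0 := by
    by_contra hb1'
    obtain ⟨b1, rfl⟩ := Nat.exists_eq_succ_of_ne_zero hb1'
    obtain ⟨b2, rfl⟩ := Nat.exists_eq_succ_of_ne_zero (show b2 ≠ 0 by omega)
    refine hnd 1 one_pos (by linarith) ?_
    refine ⟨A1 * p ^ b1 + A2 * p ^ b2 - (1 + p * S p (n + 1)), ?_⟩
    rw [Nat.succ_eq_add_one, Nat.succ_eq_add_one, pow_succ, pow_succ] at h'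
    linear_combination -h'
  subst hb1'
  rw [pow_zero, mul_one] at h'
  have e2 : 1 ≤ (1 + p * S p (n + 1)) := by nlinarith
  have hb2 : b2 ≠ 0 := by
    rintro rfl
    rw [pow_zero, mul_one] at h'
    have e3 : p * (1 + p) ≤ p * (1 + p * S p (n + 1)) :=
      mul_le_mul_of_nonneg_left (by nlinarith) (by linarith)
    nlinarith
  obtain ⟨b2, rfl⟩ := Nat.exists_eq_succ_of_ne_zero hb2
  rw [Nat.succ_eq_add_one, pow_succ] at h'
  have hA1' : A1 = 1 := by
    by_contra hcon
    refine hnd (A1 - 1) (by omega) (by linarith) ?_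
    exact ⟨(1 + p * S p (n + 1)) - A2 * p ^ b2, by linear_combination h'⟩
  have h'' : A2 * p ^ b2 = 1 + p * S p (n + 1) := by
    refine mul_left_cancel₀ hp0 ?_
    rw [hA1'] at h'
    linear_combination h'
  rcases Nat.eq_zero_or_pos b2 with h0 | h0
  · subst h0
    rw [pow_zero, mul_one] at h''
    nlinarith
  · obtain ⟨b2, rfl⟩ := Nat.exists_eq_succ_of_ne_zero h0.ne'
    refine hnd 1 one_pos (by linarith) ?_
    refine ⟨A2 * p ^ b2 - S p (n + 1), ?_⟩
    rw [Nat.succ_eq_add_one, pow_succ] at h''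
    linear_combination -h''

/-- the case `3 ≤ t < p` -/
theorem caseT3 {p : ℤ} {A1 A2 t : ℤ} {b1 b2 n : ℕ} (hp : 3 ≤ p) (hA1 : 0 < A1) (hA2 : 0 < A2)
    (hA1p : A1 < p) (hA2p : A2 < p) (ht : 3 ≤ t) (htp : t < p) (hb : b1 ≤ b2)
    (h : 1 + A1 * p ^ b1 + A2 * p ^ b2 = t * S p (n + 3)) : False := by
  have hS3 : S p (n + 3) = 1 + p * (1 + p * S p (n + 1)) := by
    rw [show n + 3 = (n + 1 + 1) + 1 by ring, S_succ', S_succ']
  have hS1 : S p (n + 1) = 1 + p * S p n := S_succ' _ _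
  have hS0 : 0 ≤ S p n := S_nonneg (by linarith) n
  have hS1' : 1 ≤ S p (n + 1) := by rw [hS1]; nlinarith
  obtain ⟨T1, hT1⟩ : ∃ T1, T1 = S p (n + 1) := ⟨_, rfl⟩
  rw [← hT1] at hS3 hS1'
  rw [hS3] at h
  have hnd : ∀ x : ℤ, 0 < x → x < p → ¬ p ∣ x := by
    intro x hx hxp hd
    have := Int.le_of_dvd hx hd
    linarith
  have hp0 : p ≠ 0 := by linarith
  have hb1 : b1 = 0 := by
    by_contra hb1
    obtain ⟨b1, rfl⟩ := Nat.exists_eq_succ_of_ne_zero hb1
    obtain ⟨b2, rfl⟩ := Nat.exists_eq_succ_of_ne_zero (show b2 ≠ 0 by omega)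
    refine hnd (t - 1) (by linarith) (by linarith) ?_
    refine ⟨A1 * p ^ b1 + A2 * p ^ b2 - t * (1 + p * T1), ?_⟩
    rw [Nat.succ_eq_add_one, Nat.succ_eq_add_one, pow_succ, pow_succ] at h
    linear_combination -h
  subst hb1
  rw [pow_zero, mul_one] at h
  have e1 : 1 + p ≤ 1 + p * T1 := by nlinarith
  have e2 : t * p ≤ t * (p * (1 + p * T1)) := by
    refine mul_le_mul_of_nonneg_left ?_ (by linarith)
    nlinarith
  rcases Nat.eq_zero_or_pos b2 with h0 | h0
  · subst h0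
    rw [pow_zero, mul_one] at h
    nlinarith
  · obtain ⟨b2, rfl⟩ := Nat.exists_eq_succ_of_ne_zero h0.ne'
    rw [Nat.succ_eq_add_one, pow_succ] at h
    have hd : p ∣ (1 + A1 - t) := by
      refine ⟨t * (1 + p * T1) - A2 * p ^ b2, ?_⟩
      linear_combination h
    have hA1t : 1 + A1 = t := by
      obtain ⟨q, hq⟩ := hd
      have q1 : q < 1 := by
        by_contra hcon
        push Not at hcon
        nlinarith
      have q2 : -1 < q := by
        by_contra hcon
        push Not at hcon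
        nlinarith
      have : q = 0 := by omega
      rw [this] at hq
      linarith
    have h2 : A2 * p ^ b2 = t * (1 + p * T1) := by
      refine mul_left_cancel₀ hp0 ?_
      linear_combination h - hA1t
    rcases Nat.eq_zero_or_pos b2 with h0 | h0
    · subst h0
      rw [pow_zero, mul_one] at h2
      nlinarith
    · obtain ⟨b2, rfl⟩ := Nat.exists_eq_succ_of_ne_zero h0.ne'
      rw [Nat.succ_eq_add_one, pow_succ] at h2
      refine hnd t (by linarith) htp ?_
      refine ⟨A2 * p ^ b2 - t * T1, ?_⟩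
      linear_combination -h2

/-- case (B1): `K = 2^k > p`, both exponents `≤ m - 1`; `D1`, `D2` are divisors of `K P`,
`P = p^(m-1)` -/
theorem caseB1 {p : ℤ} {k a b n : ℕ} {D1 D2 : ℤ} (hp : 3 ≤ p)
    (hK : p < 2 ^ k) (hD1 : 0 < D1)
    (hD1d : D1 ∣ 2 ^ k * p ^ (n + 2)) (hD2d : D2 ∣ 2 ^ k * p ^ (n + 2)) (hlt : D2 < D1)
    (hD2 : D2 = 2 ^ a * p ^ b) (ha : a ≤ k)
    (h : 1 + D1 + D2 = (2 * 2 ^ k - p) * S p (n + 3)) : False := by
  obtain ⟨K, hKd⟩ : ∃ K : ℤ, K = 2 ^ k := ⟨_, rfl⟩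
  obtain ⟨P, hPd⟩ : ∃ P : ℤ, P = p ^ (n + 2) := ⟨_, rfl⟩
  obtain ⟨Q, hQd⟩ : ∃ Q : ℤ, Q = p ^ (n + 1) := ⟨_, rfl⟩
  have hQ1 : p ≤ Q := by
    rw [hQd, pow_succ]
    have : 1 ≤ p ^ n := one_le_pow₀ (by linarith)
    nlinarith
  have hPQ : P = p * Q := by rw [hPd, hQd]; ring
  have hS2 : S p (n + 2) = 1 + p * S p (n + 1) := S_succ' _ _
  have hS3 : S p (n + 3) = S p (n + 2) + P := by rw [hPd]; exact S_succ _ _
  have hS2' : S p (n + 2) = S p (n + 1) + Q := by rw [hQd]; exact S_succ _ _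
  have hS1 : S p (n + 1) = 1 + p * S p n := S_succ' _ _
  have hS0 : 0 ≤ S p n := S_nonneg (by linarith) n
  have hS1' : 1 ≤ S p (n + 1) := by rw [hS1]; nlinarith
  have hP0 : 0 < P := by rw [hPd]; positivity
  have hK0 : 0 < K := by rw [hKd]; positivity
  have hKP : 0 < K * P := mul_pos hK0 hP0
  have hD2pos : 0 < D2 := by rw [hD2]; positivity
  rw [← hKd] at hK hD1d hD2d h
  rw [← hPd] at hD1d hD2d
  have hsmall : ∀ D : ℤ, 0 < D → D ∣ K * P → D = K * P ∨ 2 * D ≤ K * P := by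
    intro D hD hd
    obtain ⟨q, hq⟩ := hd
    have hq0 : 0 < q := by
      rw [hq] at hKP
      exact (mul_pos_iff_of_pos_left hD).1 hKP
    rcases eq_or_lt_of_le (show 1 ≤ q from hq0) with h1 | h1
    · left; rw [hq, ← h1, mul_one]
    · right
      rw [hq]
      nlinarith
  have hD2s : 2 * D2 ≤ K * P := by
    rcases hsmall D2 hD2pos hD2d with h1 | h1
    · exfalso
      have := Int.le_of_dvd hKP hD1d
      linarith
    · exact h1
  have hT : S p (n + 3) = S p (n + 2) + P := hS3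
  have hT2 : 1 + p ≤ S p (n + 2) := by rw [hS2]; nlinarith
  have hD1e : D1 = K * P := by
    rcases hsmall D1 hD1 hD1d with h1 | h1
    · exact h1
    · exfalso
      have e1 : K * (S p (n + 2) + P) ≤ (2 * K - p) * (S p (n + 2) + P) :=
        mul_le_mul_of_nonneg_right (by linarith) (by linarith)
      have e2 : 0 < K * S p (n + 2) := mul_pos hK0 (by linarith)
      have e3 : K * 1 ≤ K * S p (n + 2) := mul_le_mul_of_nonneg_left (by linarith) hK0.le
      rw [hT] at h
      nlinarith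
  rcases le_or_gt (2 * p) K with hbig | hsm
  · -- `2 p ≤ K`
    have e1 : 3 * K * (S p (n + 2) + P) ≤ (2 * (2 * K - p)) * (S p (n + 2) + P) :=
      mul_le_mul_of_nonneg_right (by linarith) (by linarith)
    have e3 : K * 1 ≤ K * S p (n + 2) := mul_le_mul_of_nonneg_left (by linarith) hK0.le
    rw [hT] at h
    nlinarith
  · -- `K < 2 p`
    obtain ⟨u, hu⟩ : ∃ u, u = K - p := ⟨_, rfl⟩
    have hu1 : 1 ≤ u := by omega
    have hup : u < p := by omega
    have hKu : K = p + u := by rw [hu]; ring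
    have hPe : P = (p - 1) * S p (n + 2) + 1 := by rw [hPd]; exact S_pow _ _
    obtain ⟨T1, hT1d⟩ : ∃ T1, T1 = S p (n + 1) := ⟨_, rfl⟩
    obtain ⟨T2, hT2d⟩ : ∃ T2, T2 = S p (n + 2) := ⟨_, rfl⟩
    rw [← hT1d] at hS1' hS2 hS2' hS1
    rw [hT, ← hT2d, hD1e] at h
    rw [← hT2d] at hS2 hS2' hT2
    have hD2e : D2 = (u + 1) * P + (2 * u + 1) * (p * T1) + 2 * u - 1 := by
      have e3 : p * T2 = p * T1 + P := by rw [hS2', hPQ]; ring
      have e4 : 2 * K - p = p + 2 * u := by rw [hKu]; ring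
      rw [e4] at h
      linear_combination h + e3 + 2 * u * hS2 - P * hKu
    have hQ2 : p * p ≤ P := by rw [hPQ]; exact mul_le_mul_of_nonneg_left hQ1 (by linarith)
    have hT1' : 0 ≤ (2 * u + 1) * (p * T1) := by positivity
    rcases Nat.eq_zero_or_pos b with h0 | h0
    · subst h0
      rw [pow_zero, mul_one] at hD2
      have e1 : D2 ≤ K := by
        rw [hD2, hKd]
        exact pow_le_pow_right₀ (by norm_num) ha
      nlinarith
    · obtain ⟨b, rfl⟩ := Nat.exists_eq_succ_of_ne_zero h0.ne'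
      rw [Nat.succ_eq_add_one, pow_succ] at hD2
      have hpu : 2 * u - 1 = p := by
        have hd : p ∣ 2 * u - 1 := by
          refine ⟨2 ^ a * p ^ b - (u + 1) * Q - (2 * u + 1) * T1, ?_⟩
          rw [hPQ] at hD2e
          linear_combination hD2 - hD2e
        obtain ⟨q, hq⟩ := hd
        have q1 : q < 2 := by
          by_contra hcon
          push Not at hcon
          nlinarith
        have q2 : 0 < q := by
          by_contra hcon
          push Not at hcon
          nlinarith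
        have : q = 1 := by omega
        rw [this] at hq
        linarith
      have hp0 : p ≠ 0 := by linarith
      have h3 : 2 ^ a * p ^ b = (u + 1) * Q + (p + 2) * T1 + 1 := by
        refine mul_left_cancel₀ hp0 ?_
        rw [hPQ] at hD2e
        linear_combination hD2e - hD2 + (1 + p * T1) * hpu
      rcases Nat.eq_zero_or_pos b with h0 | h0
      · subst h0
        rw [pow_zero, mul_one] at h3
        have e1 : (2 : ℤ) ^ a ≤ K := by
          rw [hKd]
          exact pow_le_pow_right₀ (by norm_num) ha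
        nlinarith
      · obtain ⟨b, rfl⟩ := Nat.exists_eq_succ_of_ne_zero h0.ne'
        rw [Nat.succ_eq_add_one, pow_succ] at h3
        have hd : p ∣ 3 := by
          have hQp : Q = p * p ^ n := by rw [hQd]; ring
          refine ⟨2 ^ a * p ^ b - (u + 1) * p ^ n - T1 - 2 * S p n, ?_⟩
          rw [hQp] at h3
          linear_combination -h3 - 2 * hS1
        have hp3 : p = 3 := by
          have := Int.le_of_dvd (by norm_num) hd
          linarith
        have hK5 : K = 5 := by omega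
        have hKodd : Odd K := by rw [hK5]; exact ⟨2, by norm_num⟩
        have := odd_pow_two (a := k) hKodd hK0 (by rw [hKd])
        omega

end Pool.Agent.H47NP
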