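import Mathlib
import Pool.Agent.H47NP.D

set_option autoImplicit false

namespace Pool.Agent.H47NP

/-- case (B2), assembled -/
theorem asmB2 {p : ℕ} {k n a1 a2 : ℕ} (hp : 3 ≤ (p : ℤ)) (hodd : Odd (p : ℤ))
    (ha1 : a1 ≤ k) (hlt : a2 < a1)
    (h : 1 + 2 ^ a1 * (p : ℤ) ^ (n + 3) + 2 ^ a2 * (p : ℤ) ^ (n + 3) =
      (2 * 2 ^ k - p) * S p (n + 3)) : False := by
  have hS3 : S (p : ℤ) (n + 3) = 1 + p * (1 + p * S p (n + 1)) := by
    rw [show n + 3 = (n + 1 + 1) + 1 by ring, S_succ', S_succ']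
  have hS1 : S (p : ℤ) (n + 1) = 1 + p * S p n := S_succ' _ _
  have hS0 : 0 ≤ S (p : ℤ) n := S_nonneg (by linarith) n
  have hS1' : 1 ≤ S (p : ℤ) (n + 1) := by rw [hS1]; nlinarith
  have hT : 1 + (p : ℤ) + (p : ℤ) ^ 2 ≤ S (p : ℤ) (n + 3) := by
    rw [hS3]
    have e1 : (p : ℤ) * p ≤ p * (p * S p (n + 1)) := by
      refine mul_le_mul_of_nonneg_left ?_ (by linarith)
      nlinarith
    nlinarith
  have hg : (2 : ℤ) ^ (k - a1 + 1) * 2 ^ a1 = 2 * 2 ^ k := by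
    rw [← pow_add, show k - a1 + 1 + a1 = k + 1 by omega, pow_succ]
    ring
  refine caseB2 (p := (p : ℤ)) (T := S p (n + 3)) (X := 2 ^ a1) (Y := 2 ^ a2)
    (g := 2 ^ (k - a1 + 1)) hp hodd hT (by positivity) (by positivity)
    (pow_dvd_pow 2 hlt.le) ⟨2 ^ (k - a1), by rw [pow_succ]; ring⟩ (by positivity) ?_
  rw [hg, ← S_pow, ← h]
  ring

/-- case (B3), assembled -/
theorem asmB3 {p : ℕ} {k n a1 a2 b : ℕ} (hp : 3 ≤ (p : ℤ)) (hodd : Odd (p : ℤ))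
    (ha1 : a1 ≤ k) (ha2 : a2 ≤ k) (hb : b ≤ n + 2)
    (h : 1 + 2 ^ a1 * (p : ℤ) ^ (n + 3) + 2 ^ a2 * (p : ℤ) ^ b =
      (2 * 2 ^ k - p) * S p (n + 3)) : False := by
  obtain ⟨T, hTd⟩ : ∃ T, T = S (p : ℤ) (n + 3) := ⟨_, rfl⟩
  obtain ⟨T2, hT2d⟩ : ∃ T2, T2 = S (p : ℤ) (n + 2) := ⟨_, rfl⟩
  obtain ⟨T1, hT1d⟩ : ∃ T1, T1 = S (p : ℤ) (n + 1) := ⟨_, rfl⟩
  have hT1 : T1 = 1 + p * S p n := by rw [hT1d]; exact S_succ' _ _
  have hT2 : T2 = 1 + p * T1 := by rw [hT1d, hT2d]; exact S_succ' _ _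
  have hT : T = 1 + p * T2 := by rw [hTd, hT2d]; exact S_succ' _ _
  have hT' : T = T2 + (p : ℤ) ^ (n + 2) := by rw [hTd, hT2d]; exact S_succ _ _
  have hT2' : T2 = T1 + (p : ℤ) ^ (n + 1) := by rw [hT1d, hT2d]; exact S_succ _ _
  have hS0 : 0 ≤ S (p : ℤ) n := S_nonneg (by linarith) n
  have hT1' : 1 ≤ T1 := by rw [hT1]; nlinarith
  have hT2'' : 1 + (p : ℤ) ≤ T2 := by rw [hT2]; nlinarith
  have hTl : 1 + (p : ℤ) + (p : ℤ) ^ 2 ≤ T := by rw [hT]; nlinarith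
  have hT0 : 0 < T := by
    have : 0 ≤ (p : ℤ) ^ 2 := by positivity
    linarith
  have hPT : (p : ℤ) ^ (n + 3) = (p - 1) * T + 1 := by rw [hTd]; exact S_pow _ _
  have hPT2 : (p : ℤ) ^ (n + 2) = (p - 1) * T2 + 1 := by rw [hT2d]; exact S_pow _ _
  obtain ⟨g, hgd⟩ : ∃ g : ℤ, g = 2 ^ (k - a1 + 1) := ⟨_, rfl⟩
  have hg : g * 2 ^ a1 = 2 * 2 ^ k := by
    rw [hgd, ← pow_add, show k - a1 + 1 + a1 = k + 1 by omega, pow_succ]
    ring
  have hge : Even g := ⟨2 ^ (k - a1), by rw [hgd, pow_succ]; ring⟩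
  obtain ⟨r, hr⟩ : ∃ r, r = g - p + 1 := ⟨_, rfl⟩
  have hrev : Even r := by
    obtain ⟨u, hu⟩ := hge
    obtain ⟨v, hv⟩ := hodd
    exact ⟨u - v, by rw [hr, hu, hv]; ring⟩
  have hX : 0 < (2 : ℤ) ^ a1 := by positivity
  have hY : 0 < (2 : ℤ) ^ a2 := by positivity
  have hB : 0 < (p : ℤ) ^ b := by positivity
  have hYB : 0 < (2 : ℤ) ^ a2 * (p : ℤ) ^ b := mul_pos hY hB
  have hpT : 0 < p * T := by nlinarith
  rw [← hTd, hPT, ← hg] at h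
  have h1 : (r * 2 ^ a1 - p) * T = 1 + 2 ^ a1 + 2 ^ a2 * (p : ℤ) ^ b := by
    rw [hr]
    linear_combination -h
  have hr0 : 0 < r := by
    by_contra hcon
    push Not at hcon
    have e1 : r * 2 ^ a1 ≤ 0 := mul_nonpos_of_nonpos_of_nonneg hcon hX.le
    have e2 : (r * 2 ^ a1 - p) * T ≤ 0 :=
      mul_nonpos_of_nonpos_of_nonneg (by linarith) (by linarith)
    linarith
  have hr2 : 2 ≤ r := by
    obtain ⟨u, hu⟩ := hrev
    omega
  obtain ⟨c, hc⟩ : ∃ c, c = r * 2 ^ a1 - p := ⟨_, rfl⟩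
  rw [← hc] at h1
  have hc0 : 0 < c := by
    have : 0 < c * T := by linarith
    exact (mul_pos_iff_of_pos_right (by linarith)).1 this
  have hcodd : Odd c := by
    rw [hc]
    exact (hrev.mul_right _).sub_odd hodd
  have hY2 : 2 * (2 : ℤ) ^ a2 ≤ g * 2 ^ a1 := by
    rw [hg]
    have : (2 : ℤ) ^ a2 ≤ 2 ^ k := pow_le_pow_right₀ (by norm_num) ha2
    linarith
  have hX2 : 2 * (2 : ℤ) ^ a1 ≤ p + c := by nlinarith
  have hgr : g = r + p - 1 := by rw [hr]; ring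
  have hY4 : 4 * (2 : ℤ) ^ a2 ≤ (p + c) * (p + 1) := by
    have e1 : g * 2 ^ a1 = (p + c) + (p - 1) * 2 ^ a1 := by rw [hgr, hc]; ring
    have e2 : (p - 1) * (2 * 2 ^ a1) ≤ (p - 1) * (p + c : ℤ) :=
      mul_le_mul_of_nonneg_left hX2 (by linarith)
    nlinarith
  rcases Nat.eq_zero_or_pos b with h0 | h0
  · subst h0
    rw [pow_zero, mul_one] at h1
    exact caseB3a hp hTl hc0 hr2 hX hc hY4 h1
  · obtain ⟨b, rfl⟩ := Nat.exists_eq_succ_of_ne_zero h0.ne'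
    rw [Nat.succ_eq_add_one] at h1 hb
    rcases Nat.lt_or_ge b (n + 1) with hbn | hbn
    · refine caseB3b (n := n) hp hT1' hT2 hT ?_ hc0 hcodd hr2 hX hc hY4 (by omega) h1
      rw [hT', hT2']
    · have hbe : b = n + 1 := by omega
      subst hbe
      refine caseB3c (p := (p : ℤ)) (P := (p : ℤ) ^ (n + 2)) (T2 := T2) (T := T) hp hodd hPT2 hT'
        hT2'' ?_ hgd hr hr2 hrev hc0 hcodd hc hY2 h1
      rcases Nat.eq_zero_or_pos n with hn | hn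
      · left; rw [hn]
      · right
        exact pow_le_pow_right₀ (by linarith) (by omega)

/-- all cases with `m = n + 3` and `p` odd -/
theorem main3 {p : ℕ} {k n a1 a2 b1 b2 : ℕ} (hp : 3 ≤ (p : ℤ)) (hodd : Odd (p : ℤ))
    (ha1 : a1 ≤ k) (ha2 : a2 ≤ k) (hb1 : b1 ≤ n + 3) (hb2 : b2 ≤ n + 3)
    (hne : (2 : ℤ) ^ a1 * (p : ℤ) ^ b1 ≠ 2 ^ a2 * (p : ℤ) ^ b2)
    (h : 1 + 2 ^ a1 * (p : ℤ) ^ b1 + 2 ^ a2 * (p : ℤ) ^ b2 =
      (2 * 2 ^ k - p) * S p (n + 3)) : n = 0 ∧ (p : ℤ) + 1 = 2 * 2 ^ k := by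
  wlog hb : b1 ≤ b2 generalizing a1 a2 b1 b2
  · exact this ha2 ha1 hb2 hb1 hne.symm (by rw [← h]; ring) (by omega)
  have hS : 0 < S (p : ℤ) (n + 3) := by
    have h1 : S (p : ℤ) (n + 3) = 1 + p * S p (n + 2) := S_succ' _ _
    have h2 : 0 ≤ S (p : ℤ) (n + 2) := S_nonneg (by linarith) _
    rw [h1]; nlinarith
  obtain ⟨t, ht⟩ : ∃ t : ℤ, t = 2 * 2 ^ k - p := ⟨_, rfl⟩
  have hA1 : 0 < (2 : ℤ) ^ a1 := by positivity
  have hA2 : 0 < (2 : ℤ) ^ a2 := by positivity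
  have hA1k : (2 : ℤ) ^ a1 ≤ 2 ^ k := pow_le_pow_right₀ (by norm_num) ha1
  have hA2k : (2 : ℤ) ^ a2 ≤ 2 ^ k := pow_le_pow_right₀ (by norm_num) ha2
  have ht0 : 0 < t := by
    have : 0 < t * S p (n + 3) := by rw [ht, ← h]; positivity
    exact (mul_pos_iff_of_pos_right hS).1 this
  have htodd : Odd t := by
    rw [ht]
    exact (even_two_mul _).sub_odd hodd
  rcases lt_trichotomy t p with hlt | heq | hgt
  · rcases eq_or_lt_of_le (show 1 ≤ t from ht0) with h1 | h1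
    · have hpk : (p : ℤ) + 1 = 2 * 2 ^ k := by rw [h1, ht]; ring
      refine ⟨?_, hpk⟩
      rw [← ht, ← h1, one_mul] at h
      exact caseT1 hp hA1 hA2 (by linarith) (by linarith) hb h
    · exfalso
      have ht3 : 3 ≤ t := by
        obtain ⟨u, hu⟩ := htodd
        omega
      rw [← ht] at h
      exact caseT3 hp hA1 hA2 (by linarith) (by linarith) ht3 hlt hb h
  · exfalso
    have : (p : ℤ) = 2 ^ k := by linarith
    have := odd_pow_two (a := k) hodd (by linarith) (by rw [this])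
    linarith
  · exfalso
    have hK : (p : ℤ) < 2 ^ k := by linarith
    rcases Nat.lt_or_ge b2 (n + 3) with hb2' | hb2'
    · -- (B1)
      have hd1 : (2 : ℤ) ^ a1 * (p : ℤ) ^ b1 ∣ 2 ^ k * (p : ℤ) ^ (n + 2) :=
        mul_dvd_mul (pow_dvd_pow 2 ha1) (pow_dvd_pow _ (by omega))
      have hd2 : (2 : ℤ) ^ a2 * (p : ℤ) ^ b2 ∣ 2 ^ k * (p : ℤ) ^ (n + 2) :=
        mul_dvd_mul (pow_dvd_pow 2 ha2) (pow_dvd_pow _ (by omega))
      rcases lt_or_gt_of_ne hne with h1 | h1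
      · exact caseB1 hp hK (by positivity) hd2 hd1 h1 rfl ha1 (by rw [← h]; ring)
      · exact caseB1 hp hK (by positivity) hd1 hd2 h1 rfl ha2 h
    · have hb2e : b2 = n + 3 := by omega
      subst hb2e
      rcases Nat.lt_or_ge b1 (n + 3) with hb1' | hb1'
      · exact asmB3 hp hodd ha2 ha1 (show b1 ≤ n + 2 by omega) (by rw [← h]; ring)
      · have hb1e : b1 = n + 3 := by omega
        subst hb1e
        rcases lt_trichotomy a1 a2 with h1 | h1 | h1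
        · exact asmB2 hp hodd ha2 h1 (by rw [← h]; ring)
        · exact hne (by rw [h1])
        · exact asmB2 hp hodd ha1 h1 h

end Pool.Agent.H47NP
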