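import Mathlib
import Pool.Agent.H47NP.D

set_option autoImplicit false

namespace Pool.Agent.H47NP

/-- `m = 2`, both exponents `2` -/
theorem twoB2 {p : ℤ} {K X g : ℤ} {a2 : ℕ} (hp : 3 ≤ p) (hodd : Odd p)
    (hX : 0 < X) (hYX : 2 ^ a2 ∣ X) (hg : Even g) (hg0 : 0 < g)
    (hgX : g * X = 2 * K)
    (h : 1 + (X + 2 ^ a2) * p ^ 2 = (2 * K - p) * (1 + p)) : False := by
  obtain ⟨Y, hYd⟩ : ∃ Y : ℤ, Y = 2 ^ a2 := ⟨_, rfl⟩
  have hY : 0 < Y := by rw [hYd]; positivity
  rw [← hYd] at h hYX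
  rw [← hgX] at h
  obtain ⟨j, hj⟩ : ∃ j, j = g * X - p - (p - 1) * (X + Y) := ⟨_, rfl⟩
  have h1 : g * X = 1 + j * p ^ 2 := by
    rw [hj]
    linear_combination (p - 1) * h
  have hp2 : 0 < p ^ 2 := by positivity
  have h2 : X + Y + 1 = j * (1 + p) := by
    have : (X + Y + 1) * p ^ 2 = j * (1 + p) * p ^ 2 := by
      linear_combination h + (1 + p) * h1
    exact mul_right_cancel₀ hp2.ne' this
  have hj0 : 0 < j := by
    have : 0 < j * (1 + p) := by linarith
    exact (mul_pos_iff_of_pos_right (by linarith)).1 this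
  obtain ⟨r, hr⟩ : ∃ r, r = g - p + 1 := ⟨_, rfl⟩
  have hrev : Even r := by
    obtain ⟨u, hu⟩ := hg
    obtain ⟨v, hv⟩ := hodd
    exact ⟨u - v, by rw [hr, hu, hv]; ring⟩
  have hgr : g = r + p - 1 := by rw [hr]; ring
  have h4 : r * X = (p - 1) * Y + p + j := by
    rw [hgr] at h1
    linear_combination h1 - (p - 1) * h2
  have hr0 : 0 < r := by
    have : 0 < r * X := by
      have : 0 < (p - 1) * Y := mul_pos (by linarith) hY
      linarith
    exact (mul_pos_iff_of_pos_right hX).1 this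
  have hr2 : 2 ≤ r := by
    obtain ⟨u, hu⟩ := hrev
    omega
  have ha2 : a2 = 0 := by
    by_contra hne
    obtain ⟨a, rfl⟩ := Nat.exists_eq_succ_of_ne_zero hne
    have hYe : Y = 2 * 2 ^ a := by rw [hYd, Nat.succ_eq_add_one, pow_succ]; ring
    obtain ⟨H, hH⟩ := hYX
    obtain ⟨v, hv⟩ := hodd
    -- `Y ∣ 1 + p + p^2`
    have e1 : Y * ((r * H - (p - 1)) * (1 + p) - H - 1) = 1 + p * (1 + p) := by
      have e2 : p + j = Y * (r * H - (p - 1)) := by
        rw [hH] at h4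
        linear_combination -h4
      rw [hH] at h2
      linear_combination -(1 + p) * e2 - h2
    rw [hYe, hv] at e1
    have e3 : (2 * v + 1) * (1 + (2 * v + 1)) = 2 * (2 * v * v + 3 * v + 1) := by ring
    rw [e3] at e1
    have e4 : (2 : ℤ) ∣ 1 := by
      refine ⟨2 ^ a * ((r * H - (2 * v + 1 - 1)) * (1 + (2 * v + 1)) - H - 1) -
        (2 * v * v + 3 * v + 1), ?_⟩
      linear_combination -e1
    have := Int.le_of_dvd (by norm_num) e4
    omega
  have hY1 : Y = 1 := by rw [hYd, ha2, pow_zero]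
  rw [hY1] at h2 h4
  rcases eq_or_lt_of_le (show 1 ≤ j from hj0) with hj1 | hj1
  · rw [← hj1] at h2 h4
    have hXe : X = p - 1 := by linarith
    rw [hXe] at h4
    have hd : (p - 1) ∣ 2 := ⟨r - 2, by linear_combination -h4⟩
    have hp3 : p - 1 ≤ 2 := Int.le_of_dvd (by norm_num) hd
    have hp3' : p = 3 := by linarith
    rw [hp3'] at h4
    obtain ⟨u, hu⟩ := hrev
    omega
  · have hX' : X = j * (1 + p) - 2 := by linarith
    have e1 : 2 * X ≤ r * X := mul_le_mul_of_nonneg_right hr2 hX.le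
    nlinarith

/-- `m = 2`, `2^(a1) p^2` and `2^(a2)` -/
theorem twoB3a {p : ℤ} {k a1 a2 : ℕ} (hp : 3 ≤ p) (hodd : Odd p) (ha1 : a1 ≤ k) (ha2 : a2 ≤ k)
    (hK : p < 2 ^ k)
    (h : 1 + 2 ^ a1 * p ^ 2 + 2 ^ a2 = (2 * 2 ^ k - p) * (1 + p)) : p = 3 ∧ k = 2 := by
  have hY1 : 0 < (2 : ℤ) ^ a2 := by positivity
  have hYK : (2 : ℤ) ^ a2 ≤ 2 ^ k := pow_le_pow_right₀ (by norm_num) ha2
  obtain ⟨v, hv⟩ := hodd
  rcases Nat.eq_zero_or_pos a2 with h0 | h0
  · subst h0
    rw [pow_zero] at h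
    obtain ⟨X, hX⟩ : ∃ X : ℤ, X = 2 ^ a1 := ⟨_, rfl⟩
    have hX0 : 0 < X := by rw [hX]; positivity
    obtain ⟨g, hgd⟩ : ∃ g : ℤ, g = 2 ^ (k - a1 + 1) := ⟨_, rfl⟩
    have hg : g * X = 2 * 2 ^ k := by
      rw [hgd, hX, ← pow_add, show k - a1 + 1 + a1 = k + 1 by omega, pow_succ]
      ring
    obtain ⟨r, hr⟩ : ∃ r, r = g - p + 1 := ⟨_, rfl⟩
    have hgr : g = r + p - 1 := by rw [hr]; ring
    have hrev : Even r := ⟨2 ^ (k - a1) - v, by rw [hr, hgd, hv, pow_succ]; ring⟩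
    rw [← hg, ← hX, hgr] at h
    have h1 : X * (r * (p + 1) - 1) = p * (p + 1) + 2 := by linear_combination -h
    have hr0 : 0 < r := by
      by_contra hcon
      push Not at hcon
      have : r * (p + 1) ≤ 0 := mul_nonpos_of_nonpos_of_nonneg hcon (by linarith)
      have : X * (r * (p + 1) - 1) ≤ 0 := mul_nonpos_of_nonneg_of_nonpos hX0.le (by linarith)
      nlinarith
    have hr2 : 2 ≤ r := by
      obtain ⟨u, hu⟩ := hrev
      omega
    have h2 : X + 2 = (p + 1) * (X * r - p) := by linear_combination -h1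
    have h3 : 0 < X * r - p := by
      have : 0 < (p + 1) * (X * r - p) := by linarith
      exact (mul_pos_iff_of_pos_left (by linarith)).1 this
    have h4 : p - 1 ≤ X := by nlinarith
    have h5 : X * (2 * p + 1) ≤ p * (p + 1) + 2 := by
      rw [← h1]
      refine mul_le_mul_of_nonneg_left ?_ hX0.le
      nlinarith
    have hp3 : p = 3 := by nlinarith
    rw [hp3] at h5 h1 h4
    have hX2 : X = 2 := by omega
    rw [hX2] at h1
    have hr2' : r = 2 := by omega
    rw [hgr, hr2', hp3, hX2] at hg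
    refine ⟨hp3, ?_⟩
    have h8 : (2 : ℤ) ^ k = 2 ^ 2 := by linarith
    exact Nat.pow_right_injective (le_refl 2) (by exact_mod_cast h8)
  · obtain ⟨a2, rfl⟩ := Nat.exists_eq_succ_of_ne_zero h0.ne'
    rcases Nat.eq_zero_or_pos a1 with h1 | h1
    · subst h1
      exfalso
      nlinarith
    · exfalso
      obtain ⟨a1, rfl⟩ := Nat.exists_eq_succ_of_ne_zero h1.ne'
      have e1 : (2 : ℤ) ^ a1.succ = 2 * 2 ^ a1 := by rw [Nat.succ_eq_add_one, pow_succ]; ring
      have e2 : (2 : ℤ) ^ a2.succ = 2 * 2 ^ a2 := by rw [Nat.succ_eq_add_one, pow_succ]; ring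
      rw [e1, e2] at h
      have hd : (2 : ℤ) ∣ 1 := by
        refine ⟨(2 * 2 ^ k - p) * (v + 1) - 2 ^ a1 * p ^ 2 - 2 ^ a2, ?_⟩
        linear_combination h + (2 * 2 ^ k - p) * hv
      have := Int.le_of_dvd (by norm_num) hd
      omega

/-- `m = 2`, `2^(a1) p^2` and `2^(a2) p` -/
theorem twoB3b {p : ℤ} {k a1 a2 : ℕ} (hp : 3 ≤ p) (hodd : Odd p) (ha1 : a1 ≤ k) (ha2 : a2 ≤ k)
    (hK : p < 2 ^ k)
    (h : 1 + 2 ^ a1 * p ^ 2 + 2 ^ a2 * p = (2 * 2 ^ k - p) * (1 + p)) : p = 5 ∧ k = 3 := by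
  have hY1 : 0 < (2 : ℤ) ^ a2 := by positivity
  have hYK : (2 : ℤ) ^ a2 ≤ 2 ^ k := pow_le_pow_right₀ (by norm_num) ha2
  obtain ⟨v, hv⟩ := hodd
  rcases Nat.eq_zero_or_pos a2 with h0 | h0
  · subst h0
    exfalso
    rw [pow_zero] at h
    obtain ⟨X, hX⟩ : ∃ X : ℤ, X = 2 ^ a1 := ⟨_, rfl⟩
    have hX0 : 0 < X := by rw [hX]; positivity
    obtain ⟨g, hgd⟩ : ∃ g : ℤ, g = 2 ^ (k - a1 + 1) := ⟨_, rfl⟩
    have hg : g * X = 2 * 2 ^ k := by
      rw [hgd, hX, ← pow_add, show k - a1 + 1 + a1 = k + 1 by omega, pow_succ]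
      ring
    obtain ⟨r, hr⟩ : ∃ r, r = g - p + 1 := ⟨_, rfl⟩
    have hgr : g = r + p - 1 := by rw [hr]; ring
    have hrev : Even r := ⟨2 ^ (k - a1) - v, by rw [hr, hgd, hv, pow_succ]; ring⟩
    rw [← hg, ← hX, hgr] at h
    have h1 : X * (r * (p + 1) - 1) = (p + 1) ^ 2 := by linear_combination -h
    have hr0 : 0 < r := by
      by_contra hcon
      push Not at hcon
      have : r * (p + 1) ≤ 0 := mul_nonpos_of_nonpos_of_nonneg hcon (by linarith)
      have : X * (r * (p + 1) - 1) ≤ 0 := mul_nonpos_of_nonneg_of_nonpos hX0.le (by linarith)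
      nlinarith
    obtain ⟨q, hq⟩ : ∃ q, X = (p + 1) * q := ⟨X * r - (p + 1), by linear_combination -h1⟩
    have hp1 : p + 1 ≠ 0 := by linarith
    have h2 : q * (r * (p + 1) - 1) = p + 1 := by
      refine mul_left_cancel₀ hp1 ?_
      rw [hq] at h1
      linear_combination h1
    obtain ⟨s, hs⟩ : ∃ s, q = (p + 1) * s := ⟨q * r - 1, by linear_combination -h2⟩
    have hq0 : 0 < q := by
      rw [hq] at hX0
      exact (mul_pos_iff_of_pos_left (by linarith)).1 hX0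
    have hs0 : 0 < s := by
      rw [hs] at hq0
      exact (mul_pos_iff_of_pos_left (by linarith)).1 hq0
    have h3 : s * (r * (p + 1) - 1) = 1 := by
      refine mul_left_cancel₀ hp1 ?_
      rw [hs] at h2
      linear_combination h2
    have h4 : p ≤ r * (p + 1) - 1 := by nlinarith
    nlinarith
  · obtain ⟨a2, rfl⟩ := Nat.exists_eq_succ_of_ne_zero h0.ne'
    have e2 : (2 : ℤ) ^ a2.succ = 2 * 2 ^ a2 := by rw [Nat.succ_eq_add_one, pow_succ]; ring
    rcases Nat.eq_zero_or_pos a1 with h1 | h1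
    · subst h1
      rw [pow_zero, one_mul] at h
      obtain ⟨Y, hY⟩ : ∃ Y : ℤ, Y = 2 ^ a2.succ := ⟨_, rfl⟩
      obtain ⟨K, hKd⟩ : ∃ K : ℤ, K = 2 ^ k := ⟨_, rfl⟩
      rw [← hY] at h hYK hY1
      rw [← hKd] at h hYK hK
      obtain ⟨s, hs⟩ : ∃ s, 2 * K = 1 + s * p :=
        ⟨Y - 2 * K + 1 + 2 * p, by linear_combination -h⟩
      have hp0 : p ≠ 0 := by linarith
      have hYs : Y = s * (1 + p) - 2 * p := by
        refine mul_left_cancel₀ hp0 ?_
        rw [hs] at h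
        linear_combination h
      have hs4 : s < 4 := by nlinarith
      have hs2 : 2 ≤ s := by nlinarith
      have hs3 : s = 3 := by
        have : s ≠ 2 := by
          rintro rfl
          omega
        omega
      rw [hs3] at hs hYs
      have hYK' : Y ∣ K := by
        rw [hY, hKd]
        exact pow_dvd_pow 2 ha2
      obtain ⟨q, hq⟩ := hYK'
      have h8 : (p + 3) ∣ 8 := by
        have hYp : Y = p + 3 := by rw [hYs]; ring
        rw [hYp] at hq
        exact ⟨3 - 2 * q, by linear_combination hs - 2 * hq⟩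
      have hp5 : p ≤ 5 := by
        have := Int.le_of_dvd (by norm_num) h8
        linarith
      have hp5' : p = 5 := by
        have : p ≠ 3 := by rintro rfl; omega
        have : p ≠ 4 := by rintro rfl; omega
        omega
      refine ⟨hp5', ?_⟩
      rw [hp5'] at hs
      have h8 : (2 : ℤ) ^ k = 2 ^ 3 := by rw [← hKd]; linarith
      exact Nat.pow_right_injective (le_refl 2) (by exact_mod_cast h8)
    · exfalso
      obtain ⟨a1, rfl⟩ := Nat.exists_eq_succ_of_ne_zero h1.ne'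
      have e1 : (2 : ℤ) ^ a1.succ = 2 * 2 ^ a1 := by rw [Nat.succ_eq_add_one, pow_succ]; ring
      rw [e1, e2] at h
      have hd : (2 : ℤ) ∣ 1 := by
        refine ⟨(2 * 2 ^ k - p) * (v + 1) - 2 ^ a1 * p ^ 2 - 2 ^ a2 * p, ?_⟩
        linear_combination h + (2 * 2 ^ k - p) * hv
      have := Int.le_of_dvd (by norm_num) hd
      omega

/-- `m = 2`, `K = 2^k > p`, both exponents `≤ 1` -/
theorem twoB1 {p : ℤ} {k a b : ℕ} {D1 D2 : ℤ} (hp : 3 ≤ p)
    (hK : p < 2 ^ k) (hD1 : 0 < D1)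
    (hD1d : D1 ∣ 2 ^ k * p) (hD2d : D2 ∣ 2 ^ k * p) (hlt : D2 < D1)
    (hD2 : D2 = 2 ^ a * p ^ b) (ha : a ≤ k) (hb : b ≤ 1)
    (h : 1 + D1 + D2 = (2 * 2 ^ k - p) * (1 + p)) : False := by
  obtain ⟨K, hKd⟩ : ∃ K : ℤ, K = 2 ^ k := ⟨_, rfl⟩
  have hK0 : 0 < K := by rw [hKd]; positivity
  have hKP : 0 < K * p := mul_pos hK0 (by linarith)
  have hD2pos : 0 < D2 := by rw [hD2]; positivity
  rw [← hKd] at hK hD1d hD2d h
  have hsmall : ∀ D : ℤ, 0 < D → D ∣ K * p → D = K * p ∨ 2 * D ≤ K * p := by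
    intro D hD hd
    obtain ⟨q, hq⟩ := hd
    have hq0 : 0 < q := by
      rw [hq] at hKP
      exact (mul_pos_iff_of_pos_left hD).1 hKP
    rcases eq_or_lt_of_le (show 1 ≤ q from hq0) with h1 | h1
    · left; rw [hq, ← h1, mul_one]
    · right
      rw [hq]
      nlinarith
  have hD2s : 2 * D2 ≤ K * p := by
    rcases hsmall D2 hD2pos hD2d with h1 | h1
    · exfalso
      have := Int.le_of_dvd hKP hD1d
      linarith
    · exact h1
  have hD1e : D1 = K * p := by
    rcases hsmall D1 hD1 hD1d with h1 | h1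
    · exact h1
    · exfalso
      nlinarith
  rcases le_or_gt (2 * p) K with hbig | hsm
  · have e1 : 3 * K * (1 + p) ≤ (2 * (2 * K - p)) * (1 + p) :=
      mul_le_mul_of_nonneg_right (by linarith) (by linarith)
    nlinarith
  · obtain ⟨u, hu⟩ : ∃ u, u = K - p := ⟨_, rfl⟩
    have hu1 : 1 ≤ u := by omega
    have hup : u < p := by omega
    have hKu : K = p + u := by rw [hu]; ring
    have hD2e : D2 = (u + 1) * p + 2 * u - 1 := by
      rw [hD1e, hKu] at h
      linear_combination h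
    rcases Nat.eq_zero_or_pos b with h0 | h0
    · subst h0
      rw [pow_zero, mul_one] at hD2
      have e1 : D2 ≤ K := by
        rw [hD2, hKd]
        exact pow_le_pow_right₀ (by norm_num) ha
      nlinarith
    · have hb1 : b = 1 := by omega
      subst hb1
      rw [pow_one] at hD2
      have hpu : 2 * u - 1 = p := by
        have hd : p ∣ 2 * u - 1 := ⟨2 ^ a - (u + 1), by linear_combination hD2 - hD2e⟩
        obtain ⟨q, hq⟩ := hd
        have q1 : q < 2 := by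
          by_contra hcon
          push Not at hcon
          nlinarith
        have q2 : 0 < q := by
          by_contra hcon
          push Not at hcon
          nlinarith
        have : q = 1 := by omega
        rw [this] at hq
        linarith
      have hp0 : p ≠ 0 := by linarith
      have h3 : 2 ^ a = u + 2 := by
        refine mul_left_cancel₀ hp0 ?_
        linear_combination hD2e - hD2 + hpu
      have hKe : K = 3 * 2 ^ a - 7 := by rw [h3]; linarith
      have ha0 : a ≠ 0 := by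
        rintro rfl
        rw [pow_zero] at h3
        linarith
      obtain ⟨a, rfl⟩ := Nat.exists_eq_succ_of_ne_zero ha0
      have hKodd : Odd K := ⟨3 * 2 ^ a - 4, by
        rw [hKe, Nat.succ_eq_add_one, pow_succ]; ring⟩
      have := odd_pow_two (a := k) hKodd hK0 (by rw [hKd])
      linarith

/-- `m = 2`, `p = 2^(k+1) - 1` -/
theorem twoT1 {p : ℤ} {k a1 a2 b1 b2 : ℕ} (hp : 3 ≤ p) (hodd : Odd p) (hb : b1 ≤ b2)
    (hk : p + 1 = 2 * 2 ^ k)
    (h : 1 + 2 ^ a1 * p ^ b1 + 2 ^ a2 * p ^ b2 = 1 + p) : p = 3 ∧ k = 1 := by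
  have key : ∀ a : ℕ, (2 : ℤ) ^ a = p - 1 → p = 3 ∧ k = 1 := by
    intro a ha
    have h1 : (2 : ℤ) ^ a + 2 = 2 * 2 ^ k := by linarith
    rcases Nat.lt_or_ge a 2 with ha2 | ha2
    · interval_cases a
      · norm_num at ha
        linarith
      · have hp3 : p = 3 := by linarith
        refine ⟨hp3, ?_⟩
        have h8 : (2 : ℤ) ^ k = 2 ^ 1 := by linarith
        exact Nat.pow_right_injective (le_refl 2) (by exact_mod_cast h8)
    · exfalso
      obtain ⟨a, rfl⟩ := Nat.exists_eq_add_of_le ha2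
      rcases Nat.eq_zero_or_pos k with hk0 | hk0
      · subst hk0
        have : 0 < (2 : ℤ) ^ (2 + a) := by positivity
        rw [pow_zero] at h1
        linarith
      · obtain ⟨k, rfl⟩ := Nat.exists_eq_succ_of_ne_zero hk0.ne'
        have e1 : (2 : ℤ) ^ (2 + a) = 4 * 2 ^ a := by rw [pow_add]; norm_num
        have e2 : (2 : ℤ) ^ k.succ = 2 * 2 ^ k := by rw [Nat.succ_eq_add_one, pow_succ]; ring
        rw [e1, e2] at h1
        omega
  have hA1 : 0 < (2 : ℤ) ^ a1 := by positivity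
  have hA2 : 0 < (2 : ℤ) ^ a2 := by positivity
  have hP1 : 0 < (2 : ℤ) ^ a1 * p ^ b1 := by positivity
  have hb2 : b2 = 0 := by
    by_contra hne
    have e1 : p ≤ p ^ b2 := le_self_pow₀ (by linarith) hne
    have e2 : p ≤ 2 ^ a2 * p ^ b2 := by nlinarith
    linarith
  subst hb2
  have hb1 : b1 = 0 := by omega
  subst hb1
  rw [pow_zero, mul_one, mul_one] at h
  rcases Nat.eq_zero_or_pos a1 with h1 | h1
  · subst h1
    rw [pow_zero] at h
    exact key a2 (by linarith)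
  · rcases Nat.eq_zero_or_pos a2 with h2 | h2
    · subst h2
      rw [pow_zero] at h
      exact key a1 (by linarith)
    · exfalso
      obtain ⟨a1, rfl⟩ := Nat.exists_eq_succ_of_ne_zero h1.ne'
      obtain ⟨a2, rfl⟩ := Nat.exists_eq_succ_of_ne_zero h2.ne'
      have e1 : (2 : ℤ) ^ a1.succ = 2 * 2 ^ a1 := by rw [Nat.succ_eq_add_one, pow_succ]; ring
      have e2 : (2 : ℤ) ^ a2.succ = 2 * 2 ^ a2 := by rw [Nat.succ_eq_add_one, pow_succ]; ring
      obtain ⟨v, hv⟩ := hodd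
      rw [e1, e2] at h
      omega

/-- `m = 2`, `3 ≤ t < p` -/
theorem twoT3 {p : ℤ} {t : ℤ} {a1 a2 b1 b2 : ℕ} (hp : 3 ≤ p)
    (hA1p : (2 : ℤ) ^ a1 < p) (hA2p : (2 : ℤ) ^ a2 < p) (ht : 3 ≤ t) (htodd : Odd t) (htp : t < p)
    (hb : b1 ≤ b2)
    (h : 1 + 2 ^ a1 * p ^ b1 + 2 ^ a2 * p ^ b2 = t * (1 + p)) : False := by
  have hA1 : 0 < (2 : ℤ) ^ a1 := by positivity
  have hA2 : 0 < (2 : ℤ) ^ a2 := by positivity
  have hnd : ∀ x : ℤ, 0 < x → x < p → ¬ p ∣ x := by
    intro x hx hxp hd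
    have := Int.le_of_dvd hx hd
    linarith
  have hp0 : p ≠ 0 := by linarith
  have hb1 : b1 = 0 := by
    by_contra hb1
    obtain ⟨b1, rfl⟩ := Nat.exists_eq_succ_of_ne_zero hb1
    obtain ⟨b2, rfl⟩ := Nat.exists_eq_succ_of_ne_zero (show b2 ≠ 0 by omega)
    refine hnd (t - 1) (by linarith) (by linarith) ?_
    refine ⟨2 ^ a1 * p ^ b1 + 2 ^ a2 * p ^ b2 - t, ?_⟩
    rw [Nat.succ_eq_add_one, Nat.succ_eq_add_one, pow_succ, pow_succ] at h
    linear_combination -h
  subst hb1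
  rw [pow_zero, mul_one] at h
  rcases Nat.eq_zero_or_pos b2 with h0 | h0
  · subst h0
    rw [pow_zero, mul_one] at h
    nlinarith
  · obtain ⟨b2, rfl⟩ := Nat.exists_eq_succ_of_ne_zero h0.ne'
    rw [Nat.succ_eq_add_one, pow_succ] at h
    have hd : p ∣ (1 + 2 ^ a1 - t) := ⟨t - 2 ^ a2 * p ^ b2, by linear_combination h⟩
    have hA1t : 1 + 2 ^ a1 = t := by
      obtain ⟨q, hq⟩ := hd
      have q1 : q < 1 := by
        by_contra hcon
        push Not at hcon
        nlinarith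
      have q2 : -1 < q := by
        by_contra hcon
        push Not at hcon
        nlinarith
      have : q = 0 := by omega
      rw [this] at hq
      linarith
    have h2 : 2 ^ a2 * p ^ b2 = t := by
      refine mul_left_cancel₀ hp0 ?_
      linear_combination h - hA1t
    rcases Nat.eq_zero_or_pos b2 with h0 | h0
    · subst h0
      rw [pow_zero, mul_one] at h2
      have := odd_pow_two (a := a2) htodd (by linarith) (by rw [← h2])
      linarith
    · have e1 : p ≤ p ^ b2 := le_self_pow₀ (by linarith) h0.ne'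
      nlinarith

/-- all cases with `m = 2` and `p` odd -/
theorem main2 {p : ℕ} {k a1 a2 b1 b2 : ℕ} (hp : 3 ≤ (p : ℤ)) (hodd : Odd (p : ℤ))
    (ha1 : a1 ≤ k) (ha2 : a2 ≤ k) (hb1 : b1 ≤ 2) (hb2 : b2 ≤ 2)
    (hne : (2 : ℤ) ^ a1 * (p : ℤ) ^ b1 ≠ 2 ^ a2 * (p : ℤ) ^ b2)
    (h : 1 + 2 ^ a1 * (p : ℤ) ^ b1 + 2 ^ a2 * (p : ℤ) ^ b2 =
      (2 * 2 ^ k - p) * (1 + p)) :
    ((p : ℤ) = 3 ∧ k = 1) ∨ ((p : ℤ) = 3 ∧ k = 2) ∨ ((p : ℤ) = 5 ∧ k = 3) := by
  wlog hb : b1 ≤ b2 generalizing a1 a2 b1 b2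
  · exact this ha2 ha1 hb2 hb1 hne.symm (by rw [← h]; ring) (by omega)
  obtain ⟨t, ht⟩ : ∃ t : ℤ, t = 2 * 2 ^ k - p := ⟨_, rfl⟩
  have hA1 : 0 < (2 : ℤ) ^ a1 := by positivity
  have hA2 : 0 < (2 : ℤ) ^ a2 := by positivity
  have hA1k : (2 : ℤ) ^ a1 ≤ 2 ^ k := pow_le_pow_right₀ (by norm_num) ha1
  have hA2k : (2 : ℤ) ^ a2 ≤ 2 ^ k := pow_le_pow_right₀ (by norm_num) ha2
  have ht0 : 0 < t := by
    have : 0 < t * (1 + p) := by rw [ht, ← h]; positivity
    exact (mul_pos_iff_of_pos_right (by linarith)).1 this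
  have htodd : Odd t := by
    rw [ht]
    exact (even_two_mul _).sub_odd hodd
  rcases lt_trichotomy t p with hlt | heq | hgt
  · rcases eq_or_lt_of_le (show 1 ≤ t from ht0) with h1 | h1
    · have hpk : (p : ℤ) + 1 = 2 * 2 ^ k := by rw [h1, ht]; ring
      rw [← ht, ← h1, one_mul] at h
      exact Or.inl (twoT1 hp hodd hb hpk h)
    · exfalso
      have ht3 : 3 ≤ t := by
        obtain ⟨u, hu⟩ := htodd
        omega
      rw [← ht] at h
      exact twoT3 hp (by linarith) (by linarith) ht3 htodd hlt hb h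
  · exfalso
    have : (p : ℤ) = 2 ^ k := by linarith
    have := odd_pow_two (a := k) hodd (by linarith) (by rw [this])
    linarith
  · have hK : (p : ℤ) < 2 ^ k := by linarith
    rcases Nat.lt_or_ge b2 2 with hb2' | hb2'
    · -- (B1)
      exfalso
      have hpw : ∀ b : ℕ, b ≤ 1 → (p : ℤ) ^ b ∣ (p : ℤ) := fun b hb => by
        have := pow_dvd_pow (p : ℤ) hb
        rwa [pow_one] at this
      have hd1 : (2 : ℤ) ^ a1 * (p : ℤ) ^ b1 ∣ 2 ^ k * (p : ℤ) :=
        mul_dvd_mul (pow_dvd_pow 2 ha1) (hpw _ (by omega))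
      have hd2 : (2 : ℤ) ^ a2 * (p : ℤ) ^ b2 ∣ 2 ^ k * (p : ℤ) :=
        mul_dvd_mul (pow_dvd_pow 2 ha2) (hpw _ (by omega))
      rcases lt_or_gt_of_ne hne with h1 | h1
      · exact twoB1 hp hK (by positivity) hd2 hd1 h1 rfl ha1 (by omega) (by rw [← h]; ring)
      · exact twoB1 hp hK (by positivity) hd1 hd2 h1 rfl ha2 (by omega) h
    · have hb2e : b2 = 2 := by omega
      subst hb2e
      have hb1c : b1 = 0 ∨ b1 = 1 ∨ b1 = 2 := by omega
      rcases hb1c with hb1' | hb1' | hb1'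
      · subst hb1'
        rw [pow_zero, mul_one] at h
        exact Or.inr (Or.inl (twoB3a hp hodd ha2 ha1 hK (by rw [← h]; ring)))
      · subst hb1'
        rw [pow_one] at h
        exact Or.inr (Or.inr (twoB3b hp hodd ha2 ha1 hK (by rw [← h]; ring)))
      · subst hb1'
        exfalso
        have key : ∀ x y : ℕ, x ≤ k → y < x →
            1 + 2 ^ x * (p : ℤ) ^ 2 + 2 ^ y * (p : ℤ) ^ 2 = (2 * 2 ^ k - p) * (1 + p) → False := by
          intro x y hx hyx hxy
          have hg : (2 : ℤ) ^ (k - x + 1) * 2 ^ x = 2 * 2 ^ k := by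
            rw [← pow_add, show k - x + 1 + x = k + 1 by omega, pow_succ]
            ring
          refine twoB2 (p := (p : ℤ)) (K := 2 ^ k) (X := 2 ^ x) (a2 := y)
            (g := 2 ^ (k - x + 1)) hp hodd (by positivity)
            (pow_dvd_pow 2 hyx.le) ⟨2 ^ (k - x), by rw [pow_succ]; ring⟩ (by positivity) hg ?_
          rw [← hxy]
          ring
        rcases lt_trichotomy a1 a2 with h1 | h1 | h1
        · exact key a2 a1 ha2 h1 (by rw [← h]; ring)
        · exact hne (by rw [h1])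
        · exact key a1 a2 ha1 h1 h

end Pool.Agent.H47NP
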