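import Mathlib
import Pool.Agent.H47NP.E
import Pool.Agent.H47NP.F

set_option autoImplicit false

namespace Pool.Agent.H47NP

/-- `σ(2^k p^m) = (2^(k+1) - 1) (1 + p + ... + p^m)` -/
theorem sigma_eq {p k m : ℕ} (hp : p.Prime) (hp2 : p ≠ 2) :
    ((∑ d ∈ (2 ^ k * p ^ m).divisors, d : ℕ) : ℤ) = (2 * 2 ^ k - 1) * S p (m + 1) := by
  have hcop : Nat.Coprime (2 ^ k) (p ^ m) :=
    Nat.Coprime.pow _ _ ((Nat.coprime_primes Nat.prime_two hp).2 (Ne.symm hp2))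
  rw [hcop.sum_divisors_mul, Nat.sum_divisors_prime_pow Nat.prime_two,
    Nat.sum_divisors_prime_pow hp]
  push_cast
  have h2 : (∑ i ∈ Finset.range (k + 1), (2 : ℤ) ^ i) = 2 * 2 ^ k - 1 := by
    have := S_pow 2 (k + 1)
    unfold S at this
    rw [pow_succ] at this
    linarith
  rw [h2]
  rfl

/-- divisors of `2^k p^m` -/
theorem dvd_form {p k m d : ℕ} (hp : p.Prime) (h : d ∣ 2 ^ k * p ^ m) :
    ∃ a b, a ≤ k ∧ b ≤ m ∧ d = 2 ^ a * p ^ b := by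
  obtain ⟨x, y, hx, hy, rfl⟩ := (dvd_mul).1 h
  obtain ⟨a, ha, rfl⟩ := (Nat.dvd_prime_pow Nat.prime_two).1 hx
  obtain ⟨b, hb, rfl⟩ := (Nat.dvd_prime_pow hp).1 hy
  exact ⟨a, b, ha, hb, rfl⟩

/-- the main equation -/
theorem eqn {p k m : ℕ} {D : ℤ} (hp : p.Prime) (hp2 : p ≠ 2)
    (h : ((∑ d ∈ (2 ^ k * p ^ m).divisors, d : ℕ) : ℤ) = 2 * (2 ^ k * (p : ℤ) ^ m) + D) :
    1 + D = (2 * 2 ^ k - p) * S p m := by
  rw [sigma_eq hp hp2] at h
  have h1 := S_succ (p : ℤ) m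
  have h2 := S_pow (p : ℤ) m
  rw [h1] at h
  linear_combination -h - h2

theorem forward {p k m d1 d2 : ℕ} (hp : p.Prime) (hm : 2 ≤ m)
    (h1 : d1 ∣ 2 ^ k * p ^ m) (h2 : d2 ∣ 2 ^ k * p ^ m) (hne : d1 ≠ d2)
    (h : ∑ d ∈ (2 ^ k * p ^ m).divisors, d = 2 * (2 ^ k * p ^ m) + d1 + d2) :
    (m = 2 ∧ ((p = 3 ∧ k = 1) ∨ (p = 3 ∧ k = 2) ∨ (p = 5 ∧ k = 3))) ∨
      (m = 3 ∧ p + 1 = 2 ^ (k + 1)) := by
  by_cases hp2 : p = 2
  · exfalso
    subst hp2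
    rw [← pow_add, Nat.sum_divisors_prime_pow Nat.prime_two] at h
    have e1 := Nat.geomSum_eq (le_refl 2) (k + m + 1)
    rw [e1] at h
    have e2 : 2 ^ (k + m + 1) = 2 * 2 ^ (k + m) := by rw [pow_succ]; ring
    rw [e2] at h
    have e3 : 0 < 2 ^ (k + m) := by positivity
    omega
  · have hp3 : 3 ≤ p := by
      have := hp.two_le
      omega
    have hp3' : (3 : ℤ) ≤ p := by exact_mod_cast hp3
    have hodd : Odd (p : ℤ) := by
      have := hp.odd_of_ne_two hp2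
      exact_mod_cast this
    obtain ⟨a1, b1, ha1, hb1, rfl⟩ := dvd_form hp h1
    obtain ⟨a2, b2, ha2, hb2, rfl⟩ := dvd_form hp h2
    have hne' : (2 : ℤ) ^ a1 * (p : ℤ) ^ b1 ≠ 2 ^ a2 * (p : ℤ) ^ b2 := by exact_mod_cast hne
    have h' : ((∑ d ∈ (2 ^ k * p ^ m).divisors, d : ℕ) : ℤ) =
        2 * (2 ^ k * (p : ℤ) ^ m) + (2 ^ a1 * (p : ℤ) ^ b1 + 2 ^ a2 * (p : ℤ) ^ b2) := by
      rw [h]
      push_cast
      ring
    have h3 := eqn hp hp2 h'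
    rw [← add_assoc] at h3
    rcases Nat.eq_or_lt_of_le hm with hm2 | hm3
    · left
      subst hm2
      refine ⟨rfl, ?_⟩
      have hS : S (p : ℤ) 2 = 1 + p := by
        unfold S
        rw [Finset.sum_range_succ, Finset.sum_range_succ, Finset.sum_range_zero]
        ring
      rw [hS] at h3
      have := main2 hp3' hodd ha1 ha2 hb1 hb2 hne' h3
      exact_mod_cast this
    · right
      obtain ⟨n, rfl⟩ := Nat.exists_eq_add_of_le' (show 3 ≤ m from hm3)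
      obtain ⟨hn, hk⟩ := main3 hp3' hodd ha1 ha2 hb1 hb2 hne' h3
      refine ⟨by omega, ?_⟩
      have : p + 1 = 2 * 2 ^ k := by exact_mod_cast hk
      rw [this, pow_succ]
      ring

theorem backward {p k : ℕ} (hp : p.Prime) (hk : p + 1 = 2 ^ (k + 1)) :
    ∑ d ∈ (2 ^ k * p ^ 3).divisors, d = 2 * (2 ^ k * p ^ 3) + p + p ^ 2 := by
  have hp2 : p ≠ 2 := by
    rintro rfl
    rw [pow_succ] at hk
    omega
  have h1 := sigma_eq (k := k) (m := 3) hp hp2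
  have hk' : (p : ℤ) + 1 = 2 * 2 ^ k := by
    have : (p : ℤ) + 1 = 2 ^ (k + 1) := by exact_mod_cast hk
    rw [this, pow_succ]; ring
  have hS : S (p : ℤ) (3 + 1) = 1 + p + p ^ 2 + p ^ 3 := by
    unfold S
    simp only [Finset.sum_range_succ, Finset.sum_range_zero]
    ring
  have h2 : ((∑ d ∈ (2 ^ k * p ^ 3).divisors, d : ℕ) : ℤ) =
      ((2 * (2 ^ k * p ^ 3) + p + p ^ 2 : ℕ) : ℤ) := by
    rw [h1, hS]
    push_cast
    linear_combination -(1 + (p : ℤ) + p ^ 2 + p ^ 3 - p ^ 3) * hk'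
  exact_mod_cast h2

end Pool.Agent.H47NP
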